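import Pool.Agent.H12.KTH.Stmts
import Pool.Agent.H32.Dense.Tail

/-!
# KTH, row UPT: upper bounds for the entropies of the coefficients
-/

set_option autoImplicit false

namespace Pool.KTH

open Finset Real
open Pool.Agent.H49.Ent Pool.Agent.H32.Dense

namespace Upt

variable {d J : ℕ}

/-- the error term is at least one -/
lemma one_le_er {e : ℝ} (he : 0 ≤ e) : 1 ≤ er J e := by
  have h : 0 ≤ Real.log ((J : ℝ) + 2) := Real.log_nonneg (by
    have : (0 : ℝ) ≤ J := Nat.cast_nonneg J
    linarith)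
  unfold er
  linarith

/-- the tail bound for a variable `s + x` with `s` a time -/
lemma tail_time (F : Cf d J) (s x : F.Ω → ℤ)
    (hs : ∀ w, 0 < F.q w → 0 ≤ s w ∧ s w < ((2 ^ J : ℕ) : ℤ)) :
    CH F.q (fun w => s w + x w) F.Z ≤ lm J + 1.01 * F.big x + 8 := by
  have hM : 0 < 2 ^ J := by positivity
  have h := CH_le_tail hM F.hq F.h1 (fun w => s w + x w) F.Z
  have hM' : (0 : ℝ) < 2 ^ J := by positivity
  have hE : Ex F.q (fun w => Real.log (1 + |((s w + x w : ℤ) : ℝ)| / ((2 ^ J : ℕ) : ℝ))) ≤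
      Ex F.q (fun w => Real.log 2 + Real.log (1 + |(x w : ℝ)| / 2 ^ J)) := by
    refine Ex_mono F.hq fun w hw => ?_
    obtain ⟨h0, h1⟩ := hs w hw
    have h0' : (0 : ℝ) ≤ (s w : ℝ) := by exact_mod_cast h0
    have h1' : (s w : ℝ) ≤ 2 ^ J := by
      have : (s w : ℝ) < ((2 ^ J : ℕ) : ℝ) := by exact_mod_cast h1
      push_cast at this
      exact this.le
    have ha : |((s w + x w : ℤ) : ℝ)| ≤ 2 ^ J + |(x w : ℝ)| := by
      push_cast
      refine (abs_add_le _ _).trans ?_
      rw [abs_of_nonneg h0']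
      linarith
    rw [← Real.log_mul (by norm_num) (by positivity)]
    refine Real.log_le_log (by positivity) ?_
    push_cast
    have hb : |((s w : ℝ) + (x w : ℝ))| / 2 ^ J ≤ (2 ^ J + |(x w : ℝ)|) / 2 ^ J := by
      push_cast at ha
      gcongr
    rw [add_div, div_self hM'.ne'] at hb
    have hc : 0 ≤ |(x w : ℝ)| / 2 ^ J := by positivity
    linarith
  rw [Ex_add, Ex_const F.h1] at hE
  have hl : Real.log ((2 ^ J : ℕ) : ℝ) = lm J := by
    push_cast
    rw [Real.log_pow]
    rfl
  rw [hl] at h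
  have h2 : Real.log 2 < 0.6931471808 := Real.log_two_lt_d9
  have hbig : F.big x = Ex F.q (fun w => Real.log (1 + |(x w : ℝ)| / 2 ^ J)) := rfl
  rw [hbig]
  nlinarith

/-- the tail bound for a variable -/
lemma tail_var (F : Cf d J) (x : F.Ω → ℤ) :
    CH F.q x F.Z ≤ lm J + 1.01 * F.big x + 8 := by
  have h := tail_time F (fun _ => 0) x (fun w _ => ⟨le_refl _, by positivity⟩)
  simpa using h

lemma big_nonneg (F : Cf d J) (x : F.Ω → ℤ) : 0 ≤ F.big x :=
  Ex_nonneg F.hq fun w _ => Real.log_nonneg (by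
    have : 0 ≤ |(x w : ℝ)| / 2 ^ J := by positivity
    linarith)

lemma sml_nonneg (F : Cf d J) (x : F.Ω → ℤ) : 0 ≤ F.sml x :=
  Ex_nonneg F.hq fun w _ => Real.log_nonneg (by
    have : 0 ≤ (2 : ℝ) ^ J / max 1 |(x w : ℝ)| := by positivity
    linarith)

end Upt

open Upt in
/-- **UPT**: upper bounds. -/
theorem upt (h : CGPStmt) : UPTStmt := by
  intro d
  obtain ⟨C, hC0, hC⟩ := h d
  have key : ∀ (J : ℕ) (F : Cf d J) (L sb e : ℝ), F.Ok L sb e →
      1.01 * F.big F.c + 8 ≤ (1.01 * C + 8) * er J e ∧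
      1.01 * F.big F.c₂ + 8 ≤ (1.01 * C + 8) * er J e := by
    intro J F L sb e hF
    have h1 := hC J F L sb e hF
    have h2 := big_nonneg F F.c
    have h3 := sml_nonneg F F.c
    have h4 := big_nonneg F F.c₂
    have h5 := sml_nonneg F F.c₂
    have h6 := one_le_er (J := J) hF.e0
    simp only at h1
    constructor <;> nlinarith
  refine ⟨⟨1.01 * C + 8, by positivity, ?_⟩, ⟨1.01 * C + 8, by positivity, ?_⟩,
    ⟨1.01 * C + 8, by positivity, ?_⟩, ⟨1.01 * C + 8, by positivity, ?_⟩⟩
  · intro J F L sb e hF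
    have := (key J F L sb e hF).1
    have h2 := tail_var F F.c
    simp only
    linarith
  · intro J F L sb e hF
    have := (key J F L sb e hF).2
    have h2 := tail_var F F.c₂
    simp only
    linarith
  · intro J F L sb e hF
    have := (key J F L sb e hF).1
    have h2 := tail_time F F.s F.c F.hs
    have h3 : F.TO = fun w => F.s w + F.c w := rfl
    simp only [h3]
    linarith
  · intro J F L sb e hF
    have := (key J F L sb e hF).2
    have h2 := tail_time F F.tr F.c₂ F.htr
    have h3 : F.TY = fun w => F.tr w + F.c₂ w := rfl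
    simp only [h3]
    linarith

end Pool.KTH
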